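import Mathlib

set_option autoImplicit false

/-! Analytic densities of sets of positive integers which are closed under taking multiples. -/

namespace Pool.Agent.X27.Mult

open Finset Filter Topology ArithmeticFunction
open scoped ArithmeticFunction.Moebius

noncomputable section

/-- The set contains all multiples of its elements. -/
def Up (S : Set ℕ) : Prop := ∀ n m : ℕ, 1 ≤ m → n ∈ S → n * m ∈ S

/-- `∑_{n ∈ S} n ^ (-s)`. -/
def ser (S : Set ℕ) (s : ℝ) : ℝ := ∑' n : ℕ, S.indicator (fun n : ℕ => (n : ℝ) ^ (-s)) n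

/-- The proportion of `S` for the weights `n ^ (-s)`. -/
def P (S : Set ℕ) (s : ℝ) : ℝ := ser S s / ser Set.univ s

theorem pow_nonneg' (n : ℕ) (s : ℝ) : 0 ≤ (n : ℝ) ^ (-s) := Real.rpow_nonneg (Nat.cast_nonneg _) _

theorem summable_pow {s : ℝ} (hs : 1 < s) : Summable fun n : ℕ => (n : ℝ) ^ (-s) :=
  Real.summable_nat_rpow.2 (by linarith)

theorem summable_ind {s : ℝ} (hs : 1 < s) (S : Set ℕ) :
    Summable fun n : ℕ => S.indicator (fun n : ℕ => (n : ℝ) ^ (-s)) n :=
  (summable_pow hs).indicator S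

theorem ser_mono {s : ℝ} (hs : 1 < s) {S T : Set ℕ} (h : S ⊆ T) : ser S s ≤ ser T s :=
  (summable_ind hs S).tsum_le_tsum
    (fun n => Set.indicator_le_indicator_of_subset h (fun n => pow_nonneg' n s) n) (summable_ind hs T)

theorem ser_nonneg (S : Set ℕ) (s : ℝ) : 0 ≤ ser S s :=
  tsum_nonneg fun n => Set.indicator_nonneg (fun n _ => pow_nonneg' n s) n

theorem one_le_univ {s : ℝ} (hs : 1 < s) : 1 ≤ ser Set.univ s := by
  have h := (summable_ind hs Set.univ).le_tsum 1
    (fun n _ => Set.indicator_nonneg (fun n _ => pow_nonneg' n s) n)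
  rw [Set.indicator_of_mem (Set.mem_univ _), Nat.cast_one, Real.one_rpow] at h
  exact h

theorem P_nonneg (S : Set ℕ) (s : ℝ) : 0 ≤ P S s := div_nonneg (ser_nonneg _ _) (ser_nonneg _ _)

theorem P_mono {s : ℝ} (hs : 1 < s) {S T : Set ℕ} (h : S ⊆ T) : P S s ≤ P T s :=
  div_le_div_of_nonneg_right (ser_mono hs h) (ser_nonneg _ _)

theorem P_le_one {s : ℝ} (hs : 1 < s) (S : Set ℕ) : P S s ≤ 1 := by
  rw [P, div_le_one (lt_of_lt_of_le one_pos (one_le_univ hs))]
  exact ser_mono hs (Set.subset_univ S)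

/-- `n ^ (-s)` as an arithmetic function. -/
def pw (s : ℝ) (hs : s ≠ 0) : ArithmeticFunction ℝ :=
  ⟨fun n => (n : ℝ) ^ (-s), by simp [Real.zero_rpow (neg_ne_zero.2 hs)]⟩

theorem pw_apply (s : ℝ) (hs : s ≠ 0) (n : ℕ) : pw s hs n = (n : ℝ) ^ (-s) := rfl

theorem pw_mul (s : ℝ) (hs : s ≠ 0) (m n : ℕ) : pw s hs (m * n) = pw s hs m * pw s hs n := by
  simp only [pw_apply, Nat.cast_mul]
  exact Real.mul_rpow (Nat.cast_nonneg _) (Nat.cast_nonneg _)

theorem pw_mult (s : ℝ) (hs : s ≠ 0) : (pw s hs).IsMultiplicative :=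
  ⟨by simp [pw_apply], fun {m n} _ => pw_mul s hs m n⟩

/-- `μ(n) n ^ (-s)`. -/
def mpw (s : ℝ) (hs : s ≠ 0) : ArithmeticFunction ℝ := pmul (μ : ArithmeticFunction ℝ) (pw s hs)

theorem mpw_mult (s : ℝ) (hs : s ≠ 0) : (mpw s hs).IsMultiplicative :=
  (isMultiplicative_moebius.intCast (R := ℝ)).pmul (pw_mult s hs)

theorem pw_mul_mpw (s : ℝ) (hs : s ≠ 0) : pw s hs * mpw s hs = 1 := by
  ext n
  rw [mul_apply]
  have h1 : ∀ x ∈ n.divisorsAntidiagonal, pw s hs x.1 * mpw s hs x.2 =
      pw s hs n * ((μ x.2 : ℤ) : ℝ) := by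
    intro x hx
    have hx' := Nat.mem_divisorsAntidiagonal.1 hx
    rw [← hx'.1, pw_mul, mpw, pmul_apply, intCoe_apply]
    ring
  rw [sum_congr rfl h1, ← mul_sum]
  have h2 : ∑ x ∈ n.divisorsAntidiagonal, ((μ x.2 : ℤ) : ℝ) = ((1 : ArithmeticFunction ℤ) n : ℝ) := by
    rw [← coe_zeta_mul_moebius, mul_apply]
    push_cast
    refine sum_congr rfl fun x hx => ?_
    have hx' := Nat.mem_divisorsAntidiagonal.1 hx
    have h0 : x.1 ≠ 0 := by
      rintro h
      rw [h, zero_mul] at hx'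
      exact hx'.2 hx'.1.symm
    rw [natCoe_apply, zeta_apply_ne h0]
    simp
  rw [h2]
  rcases eq_or_ne n 1 with rfl | hn
  · simp [pw_apply]
  · simp [one_apply_ne hn]

/-- The kernel. -/
def ker (s s' : ℝ) (hs : s ≠ 0) (hs' : s' ≠ 0) : ArithmeticFunction ℝ := pw s' hs' * mpw s hs

theorem ker_conv {s s' : ℝ} (hs : s ≠ 0) (hs' : s' ≠ 0) : pw s hs * ker s s' hs hs' = pw s' hs' := by
  rw [ker, mul_left_comm, pw_mul_mpw, mul_one]

theorem ker_nonneg {s s' : ℝ} (hs : s ≠ 0) (hs' : s' ≠ 0) (h : s' ≤ s) (n : ℕ) :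
    0 ≤ ker s s' hs hs' n := by
  have hm : (ker s s' hs hs').IsMultiplicative := (pw_mult s' hs').mul (mpw_mult s hs)
  rcases eq_or_ne n 0 with rfl | hn
  · simp
  rw [hm.multiplicative_factorization _ hn]
  refine Finset.prod_nonneg fun p hp => ?_
  have hpp : p.Prime := Nat.prime_of_mem_primeFactors (by simpa using hp)
  have hk : n.factorization p ≠ 0 := by simpa using Finsupp.mem_support_iff.1 hp
  obtain ⟨k, hk'⟩ := Nat.exists_eq_succ_of_ne_zero hk
  rw [hk', Nat.succ_eq_add_one]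
  show 0 ≤ ker s s' hs hs' (p ^ (k + 1))
  rw [ker, mul_apply, Nat.sum_divisorsAntidiagonal
    (f := fun a b => pw s' hs' a * mpw s hs b), Nat.sum_divisors_prime_pow hpp]
  -- only the last two terms contribute
  have hdiv : ∀ j ∈ range (k + 1 + 1), p ^ (k + 1) / p ^ j = p ^ (k + 1 - j) := by
    intro j hj
    exact Nat.pow_div (by simpa [Nat.lt_succ_iff] using hj) hpp.pos
  rw [sum_congr rfl fun j hj => by rw [hdiv j hj]]
  rw [sum_range_succ, sum_range_succ]
  have hz : ∑ j ∈ range k, pw s' hs' (p ^ j) * mpw s hs (p ^ (k + 1 - j)) = 0 := by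
    refine sum_eq_zero fun j hj => ?_
    have hj' := Finset.mem_range.1 hj
    have : μ (p ^ (k + 1 - j)) = 0 := by
      rw [moebius_apply_prime_pow hpp (by omega)]
      rw [if_neg (by omega)]
    rw [mpw, pmul_apply, intCoe_apply, this]
    simp
  rw [hz, zero_add]
  have e1 : k + 1 - k = 1 := by omega
  have e2 : k + 1 - (k + 1) = 0 := by omega
  rw [e1, e2, pow_one, pow_zero]
  have hμ : mpw s hs p = -(p : ℝ) ^ (-s) := by
    rw [mpw, pmul_apply, intCoe_apply, moebius_apply_prime hpp, pw_apply]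
    push_cast
    ring
  have h1 : mpw s hs 1 = 1 := (mpw_mult s hs).1
  rw [hμ, h1, mul_one, pow_succ, pw_mul]
  have h2 : (p : ℝ) ^ (-s) ≤ (p : ℝ) ^ (-s') :=
    Real.rpow_le_rpow_of_exponent_le (by exact_mod_cast hpp.one_le) (by linarith)
  have h3 : 0 ≤ pw s' hs' (p ^ k) := pow_nonneg' _ _
  rw [pw_apply s' hs' p]
  nlinarith [mul_nonneg h3 (sub_nonneg.2 h2)]

theorem ker_le {s s' : ℝ} (hs : s ≠ 0) (hs' : s' ≠ 0) (h : s' ≤ s) (n : ℕ) :
    ker s s' hs hs' n ≤ (n : ℝ) ^ (-s') := by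
  rcases eq_or_ne n 0 with rfl | hn
  · simp only [ArithmeticFunction.map_zero]; exact pow_nonneg' _ _
  rw [← pw_apply s' hs', ← ker_conv hs hs', mul_apply]
  have hmem : (1, n) ∈ n.divisorsAntidiagonal := by simp [hn]
  have := single_le_sum (f := fun x : ℕ × ℕ => pw s hs x.1 * ker s s' hs hs' x.2)
    (fun x _ => mul_nonneg (pow_nonneg' x.1 s) (ker_nonneg hs hs' h x.2)) hmem
  simpa [pw_apply] using this

/-- The proportion of a set closed under multiples does not increase with `s`. -/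
theorem P_anti {S : Set ℕ} (hS : Up S) {s s' : ℝ} (h1 : 1 < s') (h : s' ≤ s) : P S s ≤ P S s' := by
  have hs1 : 1 < s := lt_of_lt_of_le h1 h
  have hs : s ≠ 0 := by linarith
  have hs' : s' ≠ 0 := by linarith
  set H := ker s s' hs hs' with hH
  have hHn : ∀ n, 0 ≤ H n := ker_nonneg hs hs' h
  have hHs : Summable fun n => H n :=
    Summable.of_nonneg_of_le hHn (ker_le hs hs' h) (summable_pow h1)
  have hconv : ∀ N : ℕ, ∑ x ∈ N.divisorsAntidiagonal, (x.1 : ℝ) ^ (-s) * H x.2 = (N : ℝ) ^ (-s') := by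
    intro N
    rw [← pw_apply s' hs', ← ker_conv hs hs', mul_apply]
    rfl
  -- (A) ser S s * ∑ H ≤ ser S s'
  have hA : ser S s * ∑' m, H m ≤ ser S s' := by
    have hfin : ∀ A B : ℕ, (∑ n ∈ range A, S.indicator (fun n : ℕ => (n : ℝ) ^ (-s)) n) *
        (∑ m ∈ range B, H m) ≤ ser S s' := by
      classical
      intro A B
      rw [sum_mul_sum, ← sum_product']
      -- only pairs of positive numbers count
      have hstep : ∀ x ∈ range A ×ˢ range B, S.indicator (fun n : ℕ => (n : ℝ) ^ (-s)) x.1 * H x.2 ≤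
          if 1 ≤ x.1 ∧ 1 ≤ x.2 ∧ x.1 * x.2 ∈ S then (x.1 : ℝ) ^ (-s) * H x.2 else 0 := by
        intro x _
        by_cases hx1 : x.1 ∈ S
        · rcases Nat.eq_zero_or_pos x.1 with h0 | h0
          · simp [h0, Real.zero_rpow (neg_ne_zero.2 hs), Set.indicator]
          rcases Nat.eq_zero_or_pos x.2 with h2 | h2
          · simp [h2]
          rw [if_pos ⟨h0, h2, hS _ _ h2 hx1⟩, Set.indicator_of_mem hx1]
        · rw [Set.indicator_of_notMem hx1, zero_mul]
          split_ifs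
          · exact mul_nonneg (pow_nonneg' _ _) (hHn _)
          · exact le_rfl
      refine (sum_le_sum hstep).trans ?_
      rw [← sum_filter]
      have hmaps : ∀ x ∈ (range A ×ˢ range B).filter (fun x => 1 ≤ x.1 ∧ 1 ≤ x.2 ∧ x.1 * x.2 ∈ S),
          x.1 * x.2 ∈ range (A * B + 1) := by
        intro x hx
        rw [mem_filter, mem_product, mem_range, mem_range] at hx
        rw [mem_range]
        have := Nat.mul_le_mul hx.1.1.le hx.1.2.le
        omega
      rw [← sum_fiberwise_of_maps_to hmaps]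
      have hle : ∀ N ∈ range (A * B + 1), ∑ x ∈ ((range A ×ˢ range B).filter
          (fun x => 1 ≤ x.1 ∧ 1 ≤ x.2 ∧ x.1 * x.2 ∈ S)).filter (fun x => x.1 * x.2 = N),
            (x.1 : ℝ) ^ (-s) * H x.2 ≤ S.indicator (fun n : ℕ => (n : ℝ) ^ (-s')) N := by
        intro N _
        by_cases hN : N ∈ S
        · rw [Set.indicator_of_mem hN, ← hconv N]
          refine sum_le_sum_of_subset_of_nonneg ?_ fun x _ _ => mul_nonneg (pow_nonneg' _ _) (hHn _)
          intro x hx
          rw [mem_filter, mem_filter] at hx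
          rw [Nat.mem_divisorsAntidiagonal]
          refine ⟨hx.2, ?_⟩
          rw [← hx.2]
          have h3 := Nat.mul_le_mul hx.1.2.1 hx.1.2.2.1
          omega
        · rw [Set.indicator_of_notMem hN]
          refine le_of_eq (sum_eq_zero fun x hx => ?_)
          rw [mem_filter, mem_filter] at hx
          exact absurd (hx.2 ▸ hx.1.2.2.2) hN
      refine (sum_le_sum hle).trans ?_
      exact (summable_ind h1 S).sum_le_tsum _
        fun n _ => Set.indicator_nonneg (fun n _ => pow_nonneg' n s') n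
    have t1 := (summable_ind hs1 S).hasSum.tendsto_sum_nat
    have t2 := hHs.hasSum.tendsto_sum_nat
    exact le_of_tendsto (t1.mul t2) (Eventually.of_forall fun n => hfin n n)
  -- (B) ζ(s') ≤ ζ(s) ∑ H
  have hB : ser Set.univ s' ≤ ser Set.univ s * ∑' m, H m := by
    have hfin : ∀ X : ℕ, (∑ N ∈ range X, Set.univ.indicator (fun n : ℕ => (n : ℝ) ^ (-s')) N) ≤
        ser Set.univ s * ∑' m, H m := by
      intro X
      have e1 : ∀ N ∈ range X, Set.univ.indicator (fun n : ℕ => (n : ℝ) ^ (-s')) N =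
          ∑ x ∈ N.divisorsAntidiagonal, (x.1 : ℝ) ^ (-s) * H x.2 := by
        intro N _
        rw [hconv, Set.indicator_univ]
      rw [sum_congr rfl e1, sum_sigma']
      have hinj : Set.InjOn (fun x : (Σ _ : ℕ, ℕ × ℕ) => x.2)
          ((range X).sigma fun N => N.divisorsAntidiagonal : Finset (Σ _ : ℕ, ℕ × ℕ)) := by
        rintro ⟨a, b⟩ ha ⟨c, d⟩ hc hbd
        simp only [coe_sigma, Set.mem_sigma_iff, mem_coe, Nat.mem_divisorsAntidiagonal] at ha hc
        simp only at hbd
        subst hbd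
        obtain rfl : a = c := by rw [← ha.2.1, ← hc.2.1]
        rfl
      rw [← sum_image (f := fun x : ℕ × ℕ => (x.1 : ℝ) ^ (-s) * H x.2) hinj]
      have hsub : ((range X).sigma fun N => N.divisorsAntidiagonal).image
          (fun x : (Σ _ : ℕ, ℕ × ℕ) => x.2) ⊆ range X ×ˢ range X := by
        intro x hx
        rw [mem_image] at hx
        obtain ⟨⟨N, y⟩, hy, rfl⟩ := hx
        rw [mem_sigma, mem_range, Nat.mem_divisorsAntidiagonal] at hy
        simp only at hy
        obtain ⟨h3, h4, h5⟩ := hy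
        have h6 : y.1 ≠ 0 := by rintro h; rw [h, zero_mul] at h4; exact h5 h4.symm
        have h7 : y.2 ≠ 0 := by rintro h; rw [h, mul_zero] at h4; exact h5 h4.symm
        have h8 : y.1 ≤ N := by rw [← h4]; exact Nat.le_mul_of_pos_right _ (by omega)
        have h9 : y.2 ≤ N := by rw [← h4]; exact Nat.le_mul_of_pos_left _ (by omega)
        rw [mem_product, mem_range, mem_range]
        exact ⟨lt_of_le_of_lt h8 h3, lt_of_le_of_lt h9 h3⟩
      refine (sum_le_sum_of_subset_of_nonneg hsub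
        fun x _ _ => mul_nonneg (pow_nonneg' _ _) (hHn _)).trans ?_
      rw [sum_product' (f := fun a b : ℕ => (a : ℝ) ^ (-s) * H b), ← sum_mul_sum]
      refine mul_le_mul ?_ ?_ (sum_nonneg fun m _ => hHn m) (ser_nonneg _ _)
      · have := (summable_ind hs1 Set.univ).sum_le_tsum (range X)
          (fun n _ => Set.indicator_nonneg (fun n _ => pow_nonneg' n s) n)
        simpa [ser, Set.indicator_univ] using this
      · exact hHs.sum_le_tsum _ fun m _ => hHn m
    exact le_of_tendsto (summable_ind h1 Set.univ).hasSum.tendsto_sum_nat (Eventually.of_forall hfin)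
  have hz : 0 < ser Set.univ s := lt_of_lt_of_le one_pos (one_le_univ hs1)
  have hz' : 0 < ser Set.univ s' := lt_of_lt_of_le one_pos (one_le_univ h1)
  rw [P, P, div_le_div_iff₀ hz hz']
  calc ser S s * ser Set.univ s' ≤ ser S s * (ser Set.univ s * ∑' m, H m) :=
        mul_le_mul_of_nonneg_left hB (ser_nonneg _ _)
    _ = (ser S s * ∑' m, H m) * ser Set.univ s := by ring
    _ ≤ ser S s' * ser Set.univ s := mul_le_mul_of_nonneg_right hA (ser_nonneg _ _)

/-- The analytic density of a set closed under multiples. -/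
def D (S : Set ℕ) : ℝ := sSup ((fun s => P S s) '' Set.Ioi 1)

theorem bdd_P (S : Set ℕ) : BddAbove ((fun s => P S s) '' Set.Ioi (1 : ℝ)) :=
  ⟨1, by rintro _ ⟨s, hs, rfl⟩; exact P_le_one hs S⟩

theorem P_le_D (S : Set ℕ) {s : ℝ} (hs : 1 < s) : P S s ≤ D S := le_csSup (bdd_P S) ⟨s, hs, rfl⟩

theorem D_le {S : Set ℕ} {c : ℝ} (h : ∀ s : ℝ, 1 < s → P S s ≤ c) : D S ≤ c :=
  csSup_le ⟨_, 2, by norm_num, rfl⟩ (by rintro _ ⟨s, hs, rfl⟩; exact h s hs)

theorem D_nonneg (S : Set ℕ) : 0 ≤ D S := (P_nonneg S 2).trans (P_le_D S (by norm_num))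

theorem D_le_one (S : Set ℕ) : D S ≤ 1 := D_le fun _ hs => P_le_one hs S

theorem D_mono {S T : Set ℕ} (h : S ⊆ T) : D S ≤ D T :=
  D_le fun _ hs => (P_mono hs h).trans (P_le_D T hs)

/-- The analytic density exists. -/
theorem tendsto_D {S : Set ℕ} (hS : Up S) : Tendsto (fun s => P S s) (𝓝[>] 1) (𝓝 (D S)) := by
  rw [tendsto_order]
  constructor
  · intro a ha
    obtain ⟨_, ⟨s₀, hs₀, rfl⟩, h⟩ := exists_lt_of_lt_csSup (Set.Nonempty.image _ ⟨2, by
      show (1 : ℝ) < 2; norm_num⟩) ha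
    have hs₀' : (1 : ℝ) < s₀ := hs₀
    filter_upwards [Ioo_mem_nhdsGT hs₀'] with s hs
    exact lt_of_lt_of_le h (P_anti hS hs.1 hs.2.le)
  · intro a ha
    filter_upwards [self_mem_nhdsWithin] with s hs
    exact lt_of_le_of_lt (P_le_D S hs) ha

/-- Continuity of the analytic density along increasing unions. -/
theorem D_iUnion (S : ℕ → Set ℕ) (hmono : Monotone S) :
    Tendsto (fun i => D (S i)) atTop (𝓝 (D (⋃ i, S i))) := by
  have hle : ∀ i, D (S i) ≤ D (⋃ i, S i) := fun i => D_mono (Set.subset_iUnion S i)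
  have hDm : Monotone fun i => D (S i) := fun i j hij => D_mono (hmono hij)
  have hbdd : BddAbove (Set.range fun i => D (S i)) := ⟨_, by rintro _ ⟨i, rfl⟩; exact hle i⟩
  have h1 := tendsto_atTop_ciSup hDm hbdd
  have h2 : ⨆ i, D (S i) = D (⋃ i, S i) := by
    refine le_antisymm (ciSup_le hle) (D_le fun s hs => ?_)
    -- P (⋃ S i) s is the limit of P (S i) s
    have h3 : Tendsto (fun i => ser (S i) s) atTop (𝓝 (ser (⋃ i, S i) s)) := by
      refine tendsto_tsum_of_dominated_convergence (bound := fun n : ℕ => (n : ℝ) ^ (-s))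
        (summable_pow hs) ?_ ?_
      · intro n
        by_cases hn : n ∈ ⋃ i, S i
        · obtain ⟨i, hi⟩ := Set.mem_iUnion.1 hn
          refine tendsto_const_nhds.congr' ?_
          filter_upwards [eventually_ge_atTop i] with j hj
          rw [Set.indicator_of_mem hn, Set.indicator_of_mem (hmono hj hi)]
        · refine tendsto_const_nhds.congr' ?_
          filter_upwards with j
          rw [Set.indicator_of_notMem hn, Set.indicator_of_notMem]
          exact fun h => hn (Set.mem_iUnion.2 ⟨j, h⟩)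
      · filter_upwards with i n
        rw [Real.norm_of_nonneg (Set.indicator_nonneg (fun n _ => pow_nonneg' n s) n)]
        exact Set.indicator_le_self' (fun _ _ => pow_nonneg' n s) n
    have h4 : Tendsto (fun i => P (S i) s) atTop (𝓝 (P (⋃ i, S i) s)) := h3.div_const _
    exact le_of_tendsto h4 (Eventually.of_forall fun i => (P_le_D _ hs).trans (le_ciSup hbdd i))
  rwa [h2] at h1

/-- The multiples of `n`. -/
theorem P_multiples {n : ℕ} (hn : 1 ≤ n) {s : ℝ} (hs : 1 < s) :
    P {N | n ∣ N} s = (n : ℝ) ^ (-s) := by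
  have hz : 0 < ser Set.univ s := lt_of_lt_of_le one_pos (one_le_univ hs)
  rw [P, div_eq_iff hz.ne']
  unfold ser
  rw [← tsum_mul_left]
  have hinj : Function.Injective fun m : ℕ => n * m := fun a b h => Nat.eq_of_mul_eq_mul_left hn h
  have hsupp : Function.support ({N : ℕ | n ∣ N}.indicator fun N : ℕ => (N : ℝ) ^ (-s)) ⊆
      Set.range fun m : ℕ => n * m := by
    intro N hN
    have : N ∈ {N : ℕ | n ∣ N} := by
      by_contra h
      exact hN (Set.indicator_of_notMem h _)
    obtain ⟨m, rfl⟩ := this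
    exact ⟨m, rfl⟩
  rw [← hinj.tsum_eq hsupp]
  refine tsum_congr fun m => ?_
  rw [Set.indicator_of_mem (show n * m ∈ {N : ℕ | n ∣ N} from ⟨m, rfl⟩), Set.indicator_univ,
    Nat.cast_mul, Real.mul_rpow (Nat.cast_nonneg _) (Nat.cast_nonneg _)]

theorem D_multiples {n : ℕ} (hn : 1 ≤ n) : 1 / (n : ℝ) ≤ D {N | n ∣ N} := by
  have h1 : Tendsto (fun s : ℝ => (n : ℝ) ^ (-s)) (𝓝[>] 1) (𝓝 ((n : ℝ) ^ (-(1 : ℝ)))) := by
    have hc : ContinuousAt (fun s : ℝ => (n : ℝ) ^ (-s)) 1 := by
      refine ContinuousAt.rpow continuousAt_const continuousAt_neg (Or.inl ?_)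
      have : (0 : ℝ) < n := by exact_mod_cast hn
      exact this.ne'
    exact hc.tendsto.mono_left nhdsWithin_le_nhds
  rw [Real.rpow_neg_one, ← one_div] at h1
  refine le_of_tendsto h1 ?_
  filter_upwards [self_mem_nhdsWithin] with s hs
  rw [← P_multiples hn hs]
  exact P_le_D _ hs

end

end Pool.Agent.X27.Mult
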